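import Mathlib
import Pool.Agent.T2H52.CF.Fin

set_option autoImplicit false

open Filter Topology NumberField

namespace Pool.Agent.Results.MP_648c71_nt.CubicFieldSigns

/-- `λ(N(θ)) = (-1)^Ω(|N(θ)|)`: Liouville's function at the norm of `θ`. -/
noncomputable def lamNorm {K : Type*} [Field K] [NumberField K] (θ : 𝓞 K) : ℤ :=
  (-1) ^ (ArithmeticFunction.cardFactors (Algebra.norm ℤ θ).natAbs)

/-- `A` has at least `c √X` elements in `[1, X]`, for some `c > 0` and arbitrarily large `X`. -/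
def Often (A : Set ℕ) : Prop := ∃ c : ℝ, 0 < c ∧ ∃ᶠ X : ℕ in atTop,
  c * √X ≤ ({n : ℕ | n ∈ A ∧ 1 ≤ n ∧ n ≤ X}.ncard : ℝ)

/-- **Sign changes of Liouville's function at cubic polynomials from an arbitrary cubic field.**
Let `K` be any cubic number field and let `α, β ∈ 𝓞 K` with `1, α, β` linearly independent over `ℚ`
(for instance part of an integral basis). All pairs `(x, y) ∈ [-N, N]²` outside a set of `o(N²)`
pairs have the following property: for `θ = xα + yβ` there is a nonzero integer `e` such that the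
monic cubic polynomial `f(n) = N_{K/ℚ}(n - eθ)` has `λ(f(n)) = 1` and `λ(f(n)) = -1` each for at
least `c √X` integers `1 ≤ n ≤ X`, for some `c > 0` and arbitrarily large `X`; moreover, if `K` is
Galois over `ℚ` (cyclic), there is `e ≥ 1` such that both `λ(N(n - eθ))` and `λ(N(n + eθ))`,
`n = 0, 1, 2, …`, take each of the values `1` and `-1` infinitely often. -/
theorem result {K : Type*} [Field K] [NumberField K] (hK : Module.finrank ℚ K = 3)
    (α β : 𝓞 K) (hind : LinearIndependent ℚ ![(1 : K), (α : K), (β : K)]) :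
    Tendsto (fun N : ℕ => ({v : ℤ × ℤ | |v.1| ≤ N ∧ |v.2| ≤ N ∧
      ¬ ((∃ e : ℤ, e ≠ 0 ∧
          Often {n : ℕ | lamNorm ((n : 𝓞 K) - (e : 𝓞 K) * ((v.1 : 𝓞 K) * α + (v.2 : 𝓞 K) * β)) = 1} ∧
          Often {n : ℕ | lamNorm ((n : 𝓞 K) - (e : 𝓞 K) * ((v.1 : 𝓞 K) * α + (v.2 : 𝓞 K) * β)) =
            -1}) ∧
        (IsGalois ℚ K → ∃ e : ℕ, 0 < e ∧ ∀ s c : ℤ, (s = 1 ∨ s = -1) → (c = 1 ∨ c = -1) →
          {n : ℕ | lamNorm ((n : 𝓞 K) -
            (s : 𝓞 K) * ((e : 𝓞 K) * ((v.1 : 𝓞 K) * α + (v.2 : 𝓞 K) * β))) = c}.Infinite))}.ncard :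
        ℝ) / (2 * N + 1) ^ 2) atTop (𝓝 0) := by
  have hmul := Pool.Agent.T2H52.CF.lamN_mulH (K := K)
  have hmz := Pool.Agent.T2H52.CF.mz_lamN hK
  have hC := Pool.Agent.T2H52.CF.cub hK hind
  have h1 : Pool.Agent.T2H52.CF.DZ {v : ℤ × ℤ | ¬ ∃ e : ℤ, e ≠ 0 ∧
      Often {n : ℕ | lamNorm ((n : 𝓞 K) - (e : 𝓞 K) * ((v.1 : 𝓞 K) * α + (v.2 : 𝓞 K) * β)) = 1} ∧
      Often {n : ℕ | lamNorm ((n : 𝓞 K) - (e : 𝓞 K) * ((v.1 : 𝓞 K) * α + (v.2 : 𝓞 K) * β)) =
        -1}} := by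
    refine (Pool.Agent.T2H52.CF.part_a hmul hC hmz).mono ?_
    intro v hv hgood
    apply hv
    rcases hgood with ⟨e, he, p1, p2⟩ | ⟨e, he, p1, p2⟩
    · refine ⟨e, by exact_mod_cast he.ne', ?_, ?_⟩
      · have := (Pool.Agent.T2H52.CF.many_iff _).1 p1
        rw [Int.cast_natCast]
        exact this
      · have := (Pool.Agent.T2H52.CF.many_iff _).1 p2
        rw [Int.cast_natCast]
        exact this
    · have e1 : ((-(e : ℤ) : ℤ) : 𝓞 K) * ((v.1 : 𝓞 K) * α + (v.2 : 𝓞 K) * β) =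
          (e : 𝓞 K) * -Pool.Agent.T2H52.CF.vv α β v := by
        unfold Pool.Agent.T2H52.CF.vv
        push_cast
        ring
      refine ⟨-(e : ℤ), by
        have : (e : ℤ) ≠ 0 := by exact_mod_cast he.ne'
        exact neg_ne_zero.2 this, ?_, ?_⟩
      · have := (Pool.Agent.T2H52.CF.many_iff _).1 p1
        rw [e1]
        exact this
      · have := (Pool.Agent.T2H52.CF.many_iff _).1 p2
        rw [e1]
        exact this
  by_cases hG : IsGalois ℚ K
  · have h2 := Pool.Agent.T2H52.CF.part_b' hmul hC hmz (Pool.Agent.T2H52.CF.cyc_lamN hK hind)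
    refine Pool.Agent.T2H52.CF.tendsto_of_dz ((Pool.Agent.T2H52.CF.dz_union h1 h2).mono ?_)
    intro v hv
    by_cases ha : v ∈ {v : ℤ × ℤ | ¬ ∃ e : ℤ, e ≠ 0 ∧
      Often {n : ℕ | lamNorm ((n : 𝓞 K) - (e : 𝓞 K) * ((v.1 : 𝓞 K) * α + (v.2 : 𝓞 K) * β)) = 1} ∧
      Often {n : ℕ | lamNorm ((n : 𝓞 K) - (e : 𝓞 K) * ((v.1 : 𝓞 K) * α + (v.2 : 𝓞 K) * β)) =
        -1}}
    · left; exact ha
    · right
      intro hb
      apply hv
      refine ⟨?_, fun _ => hb⟩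
      by_contra hc
      exact ha hc
  · refine Pool.Agent.T2H52.CF.tendsto_of_dz (h1.mono ?_)
    intro v hv ha
    exact hv ⟨ha, fun h => absurd h hG⟩

end Pool.Agent.Results.MP_648c71_nt.CubicFieldSigns
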