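import Pool.Agent.T2H58.SE.Fac
import Pool.Agent.T2H58.SE.Fams

/-!
# The Liouville function at polynomials with linear factors from families of small additive energy

Nothing is used besides Mathlib in the statement.
-/

set_option autoImplicit false

namespace Pool.Agent.Results.MP_648c71_nt.EnergyFactors

open Finset

/-- the Liouville function: `λ(n) = (-1)^Ω(|n|)` for `n ≠ 0`, and `λ(0) = 0` -/
noncomputable def lam (n : ℤ) : ℝ := if n = 0 then 0 else (-1) ^ ArithmeticFunction.cardFactors n.natAbs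

/-- The additive energy of order `p` of the integers `f 1, ..., f x`: the number of the `2 p`-tuples `(q, r)` of integers
in `[1, x]` with `f (q 1) + ... + f (q p) = f (r 1) + ... + f (r p)`. -/
def energy (p x : ℕ) (f : ℕ → ℤ) : ℕ :=
  (((Fintype.piFinset fun _ : Fin p => Icc 1 x) ×ˢ (Fintype.piFinset fun _ : Fin p => Icc 1 x)).filter
    fun z => ∑ i, f (z.1 i) = ∑ i, f (z.2 i)).card

/-- The tuple `h` of integers is good: for all `l` and all nonempty sets `I` of indices with `h i ≥ 0` for `i ∈ I`, the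
polynomial `f = G l ∏_{i ∈ I} (a l T + h i)` satisfies `|∑ λ(f(t))| ≤ N / log ^ U N` for the sum over the `1 ≤ t ≤ X` with
`t ≡ r mod q`, for all `q ≥ 1`, `r` and `X ≤ A N / a l`. -/
def Small (A U N : ℕ) {L s : ℕ} (a : Fin L → ℕ) (G : Fin L → Polynomial ℤ) (h : Fin s → ℤ) : Prop :=
  ∀ l, ∀ I : Finset (Fin s), I.Nonempty → (∀ i ∈ I, 0 ≤ h i) → ∀ q r X : ℕ, 1 ≤ q → a l * X ≤ A * N →
    |∑ t ∈ (Icc 1 X).filter (fun t => t ≡ r [MOD q]),
      lam ((G l * ∏ i ∈ I, (Polynomial.C (a l : ℤ) * Polynomial.X + Polynomial.C (h i))).eval (t : ℤ))| ≤ N / Real.log N ^ U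

/-- the function `f(x) = α x^c + ∑ β_j x^(δ_j)` -/
noncomputable def gpow (α c : ℝ) {r : ℕ} (β δ : Fin r → ℝ) (x : ℝ) : ℝ := α * x ^ c + ∑ j, β j * x ^ (δ j)

open Classical in
/-- **Chowla's conjecture at polynomials with linear factors from families of small additive energy.**
1. Let `B`, `A`, `W`, `κ`, `U` and, for `i < s`, the natural numbers `p i` and `C i` be fixed, and let `N` be large. For
`i < s` let `f i` be ANY family of integers `f i 1, ..., f i (x i)`, of absolute value at most `B N`, whose additive energy of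
order `p i` is at most `(log N) ^ (C i) (x i) ^ (2 p i) / N`. Let at most `(log N) ^ κ` integers `a l ≥ 1` and polynomials
`G l` with integer coefficients be given (of arbitrary degrees, with arbitrary coefficients). Then, for all the tuples of
integers `1 ≤ v i ≤ x i` up to a proportion of at most `1 / (log N) ^ U` of them: ALL the tuples of integers `h i` with
`|h i - f i (v i)| ≤ (log N) ^ W` for all `i` have the following property: for all `l` and all nonempty sets `I` of indices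
with `h i ≥ 0` for `i ∈ I`, the polynomial `f = G l ∏_{i ∈ I} (a l T + h i)` satisfies `|∑ λ(f(t))| ≤ N / (log N) ^ U`, where
`t` ranges over `1 ≤ t ≤ X`, `t ≡ r mod q`, for all arithmetic progressions `r` modulo `q` and all `X ≤ A N / a l`.
2. The energy hypothesis holds for the Piatetski-Shapiro type families: let `f(x) = α x^c + ∑ β_j x^(δ_j)` with real
`α ≠ 0`, `c > 0`, `β_j`, `δ_j < c`, where `c` is not an integer (for instance `f(x) = x^c`). Then there are `p` and `C` such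
that for every `B`, all large `N`, all `x` with `N / B ≤ x^c ≤ N` and all integers `b` and `γ ≠ 0` the energy of order `p` of
the integers `b + γ ⌊f(v)⌋`, `v ≤ x`, is at most `(log N) ^ C x ^ (2 p) / N`.
3. It holds for real polynomials: for every `d ≥ 1` there is `p` such that for every `B`, all large `N`, all `x` with
`N ≤ B x^d` and ALL real polynomials `P` of degree at most `d` whose coefficient of `X^d` lies between `1 / B` and `B` in
absolute value, the energy of order `p` of the integers `⌊P(v)⌋`, `v ≤ x`, is at most `log N x ^ (2 p) / N`. -/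
theorem result :
    (∀ (s : ℕ) (p C : Fin s → ℕ) (B A W κ U : ℕ), ∃ N₀ : ℕ, ∀ N : ℕ, N₀ ≤ N → ∀ (x : Fin s → ℕ) (f : Fin s → ℕ → ℤ),
      (∀ i, ∀ m ∈ Icc 1 (x i), |f i m| ≤ B * N) →
      (∀ i, (energy (p i) (x i) (f i) : ℝ) * N ≤ Real.log N ^ C i * (x i : ℝ) ^ (2 * p i)) →
      ∀ L : ℕ, (L : ℝ) ≤ Real.log N ^ κ → ∀ a : Fin L → ℕ, (∀ l, 1 ≤ a l) → ∀ G : Fin L → Polynomial ℤ,
      (((Fintype.piFinset fun i => Icc 1 (x i)).filter (fun v => ¬ ∀ h : Fin s → ℤ,
        (∀ i, ((|h i - f i (v i)| : ℤ) : ℝ) ≤ Real.log N ^ W) → Small A U N a G h)).card : ℝ) ≤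
        (∏ i, (x i : ℝ)) / Real.log N ^ U) ∧
    (∀ α c : ℝ, α ≠ 0 → 0 < c → (∀ n : ℕ, c ≠ n) → ∀ (r : ℕ) (β δ : Fin r → ℝ), (∀ j, δ j < c) → ∃ p C : ℕ, 1 ≤ p ∧
      ∀ B : ℕ, ∃ N₀ : ℕ, ∀ N : ℕ, N₀ ≤ N → ∀ x : ℕ, (x : ℝ) ^ c ≤ N → (N : ℝ) ≤ B * (x : ℝ) ^ c → ∀ b γ : ℤ, γ ≠ 0 →
      (energy p x (fun v => b + γ * ⌊gpow α c β δ v⌋) : ℝ) * N ≤ Real.log N ^ C * (x : ℝ) ^ (2 * p)) ∧
    (∀ d : ℕ, 1 ≤ d → ∃ p : ℕ, 1 ≤ p ∧ ∀ B : ℕ, ∃ N₀ : ℕ, ∀ N : ℕ, N₀ ≤ N → ∀ x : ℕ, (N : ℝ) ≤ B * (x : ℝ) ^ d →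
      ∀ P : Polynomial ℝ, P.natDegree ≤ d → 1 ≤ B * |P.coeff d| → |P.coeff d| ≤ B →
      (energy p x (fun v => ⌊P.eval (v : ℝ)⌋) : ℝ) * N ≤ Real.log N ^ 1 * (x : ℝ) ^ (2 * p)) := by
  refine ⟨?_, fun α c hα hc hcn r β δ hδ => Pool.Agent.T2H58.SE.rp_fam α hα c hc hcn β δ hδ,
    fun d hd => Pool.Agent.T2H58.SE.pol_fam d hd⟩
  intro s p C B A W κ U
  obtain ⟨N₀, h0⟩ := Pool.Agent.T2H58.SE.en_joint _ (fun n => Pool.Agent.H373R2.T7.liR_norm n)
    Pool.Agent.H373R2.T7.sup_liou p C B A W κ (U + 2 * (U + 3))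
  obtain ⟨N₂, h2⟩ := Pool.Agent.T2H58.SE.Fac.fac_gen s A U
  refine ⟨N₀ + N₂ + 3, fun N hN x f hf hE L hL a ha G => ?_⟩
  have hlog : 1 ≤ Real.log (N : ℝ) := by
    have h3 : (3 : ℝ) ≤ N := by exact_mod_cast (by omega : 3 ≤ N)
    rw [Real.le_log_iff_exp_le (by linarith)]
    exact (Real.exp_one_lt_d9.le.trans (by norm_num)).trans h3
  exact h2 N (by omega) x (fun v h => ∀ i, ((|h i - f i (v i)| : ℤ) : ℝ) ≤ Real.log N ^ W) L a ha G
    (fun g hg => h0 N (by omega) x f hf hE L hL a g ha fun l n _ _ => (hg l n).trans (one_le_pow₀ hlog))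

end Pool.Agent.Results.MP_648c71_nt.EnergyFactors
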