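import Mathlib
import Pool.Agent.T2H34.Prq

/-!
Chowla's conjecture for almost all products of quadratic polynomials of discriminant `-4`, multiplied by an
arbitrary polynomial, on bounded sets.

The quadratic polynomials `f = a T ^ 2 + b T + c` of discriminant `-4` with `a ≥ 1` and `0 ≤ b < 2 a`
correspond to the pairs `(d, n)`, `n < d`, `d ∣ n ^ 2 + 1`, by `a = d`, `b = 2 n`, and
`f(t) = ((n + t d) ^ 2 + 1) / d`. The input is the two point law for these pairs
(`Pool.Agent.T2H34.Dh.sml_mt`, see `MP_7169d5_nt.ShortProgressions`).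
-/

set_option autoImplicit false

namespace Pool.Agent.Results.MP_648c71_nt.ProductsOfQuadratics

open Finset Filter ArithmeticFunction

/-- the polynomials `a T ^ 2 + b T + c` with integer coefficients, discriminant `b ^ 2 - 4 a c = -4`,
`1 ≤ a ≤ X` and `0 ≤ b < 2 a`, given by `(a, b, c)`; each polynomial of discriminant `-4` with leading
coefficient between `1` and `X` is a translate `f(T + m)`, `m` an integer, of exactly one of them -/
def quads (X : ℕ) : Finset (ℕ × ℕ × ℕ) :=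
  ((Icc 1 X) ×ˢ (range (2 * X)) ×ˢ (Icc 1 X)).filter
    (fun f => f.2.1 < 2 * f.1 ∧ f.2.1 ^ 2 + 4 = 4 * f.1 * f.2.2)

/-- the polynomial `a T ^ 2 + b T + c` -/
noncomputable def pol (f : ℕ × ℕ × ℕ) : Polynomial ℤ :=
  Polynomial.C (f.1 : ℤ) * Polynomial.X ^ 2 + Polynomial.C (f.2.1 : ℤ) * Polynomial.X +
    Polynomial.C (f.2.2 : ℤ)

/-- the value `a t ^ 2 + b t + c` -/
def val (f : ℕ × ℕ × ℕ) (t : ℕ) : ℕ := f.1 * t ^ 2 + f.2.1 * t + f.2.2

/-- the Liouville function: `λ(m) = (-1)^Ω(|m|)` for `m ≠ 0`, and `λ(0) = 0` -/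
noncomputable def lam (m : ℤ) : ℝ := if m = 0 then 0 else (-1) ^ cardFactors m.natAbs

open scoped Classical in
/-- the set of the positive integers `X` with `P X` has logarithmic density `0` -/
def LogNull (P : ℕ → Prop) : Prop :=
  Tendsto (fun Z : ℕ => (∑ X ∈ (Icc 1 Z).filter P, 1 / (X : ℝ)) / Real.log Z) atTop (nhds 0)

lemma lam_mul (m n : ℤ) : lam (m * n) = lam m * lam n := by
  unfold lam
  by_cases hm : m = 0
  · simp [hm]
  · by_cases hn : n = 0
    · simp [hn]
    · rw [if_neg (mul_ne_zero hm hn), if_neg hm, if_neg hn, Int.natAbs_mul,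
        cardFactors_mul (Int.natAbs_ne_zero.2 hm) (Int.natAbs_ne_zero.2 hn), pow_add]

lemma lam_one : lam 1 = 1 := by
  unfold lam
  simp

lemma lam_prod {ι : Type*} (s : Finset ι) (f : ι → ℤ) : lam (∏ i ∈ s, f i) = ∏ i ∈ s, lam (f i) := by
  classical
  induction s using Finset.induction_on with
  | empty => simp [lam_one]
  | insert i s hi ih => rw [prod_insert hi, prod_insert hi, lam_mul, ih]

lemma lam_abs (m : ℤ) : |lam m| ≤ 1 := by
  unfold lam
  split_ifs
  · simp
  · rw [abs_pow, abs_neg, abs_one, one_pow]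

lemma eval_pol (f : ℕ × ℕ × ℕ) (t : ℕ) : (pol f).eval (t : ℤ) = (val f t : ℤ) := by
  unfold pol val
  simp

lemma val_pos {X : ℕ} {f : ℕ × ℕ × ℕ} (hf : f ∈ quads X) (t : ℕ) : 0 < val f t := by
  unfold quads at hf
  rw [mem_filter, mem_product, mem_product, mem_Icc, mem_Icc] at hf
  have h : 1 ≤ f.2.2 := hf.1.2.2.1
  unfold val
  omega

lemma lam_val {X : ℕ} {f : ℕ × ℕ × ℕ} (hf : f ∈ quads X) (t : ℕ) :
    lam ((pol f).eval (t : ℤ)) = (-1) ^ cardFactors (val f t) := by
  have h := val_pos hf t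
  rw [eval_pol]
  unfold lam
  rw [if_neg (by omega), Int.natAbs_natCast]

open scoped Classical in
/-- Let `δ > 0`, `M ≥ 1`, let `S` be a finite set of non-negative integers with at least `2 M / δ ^ 3`
elements, and let `Γ` be a finite set of non-constant polynomials with non-negative integer coefficients,
for instance `Γ = {T}`.

1. There is a set `E` of logarithmic density `0` such that for all `r ≥ 1`, all `X_1, …, X_r` outside `E`,
all `g_1, …, g_r` in `Γ` and all polynomials `G_1, …, G_M` with integer coefficients: for all but at most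
`δ ∏ |quads X_j|` of the tuples `(f_1, …, f_r)`, `f_j ∈ quads X_j`, the polynomials
`F_m = G_m ∏ f_j(g_j)` satisfy `|∑_{t ∈ S} λ(F_m(t))| ≤ δ |S|` for all `m`.

2. For each `k ≥ 1` there is a set `E` of logarithmic density `0` such that for all `r`, all
`X_1, …, X_r` outside `E`, all `g_1, …, g_r` in `Γ` and all complex valued functions `w_1, …, w_M` with
`|w_m| ≤ 1`: for all but at most `δ ∏ |quads X_j|` of the tuples `(f_1, …, f_r)`, `f_j ∈ quads X_j`, for
all `m` and all residues `i_1, …, i_r` modulo `k`, the sum of `w_m(t)` over the `t ∈ S` with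
`Ω(f_j(g_j(t))) ≡ i_j mod k` for all `j` differs from `k ^ (-r) ∑_{t ∈ S} w_m(t)` by at most `δ |S|`. -/
theorem result (M : ℕ) (hM : 1 ≤ M) (δ : ℝ) (hδ : 0 < δ) (S : Finset ℕ)
    (hS : 2 * M / δ ^ 3 ≤ (S.card : ℝ)) (Γ : Finset (Polynomial ℕ))
    (hΓ : ∀ g ∈ Γ, g.natDegree ≠ 0) :
    (∃ E : ℕ → Prop, LogNull E ∧ ∀ r : ℕ, 1 ≤ r → ∀ X : Fin r → ℕ, (∀ j, ¬ E (X j)) →
      ∀ g : Fin r → Polynomial ℕ, (∀ j, g j ∈ Γ) → ∀ G : Fin M → Polynomial ℤ,
      (((Fintype.piFinset (fun j => quads (X j))).filter (fun F => ∃ m : Fin M,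
        δ * S.card < |∑ t ∈ S, lam ((G m * ∏ j, (pol (F j)).comp
          ((g j).map (Nat.castRingHom ℤ))).eval (t : ℤ))|)).card : ℝ) ≤
      δ * ∏ j, ((quads (X j)).card : ℝ)) ∧
    (∀ k : ℕ, 1 ≤ k → ∃ E : ℕ → Prop, LogNull E ∧ ∀ r : ℕ, ∀ X : Fin r → ℕ, (∀ j, ¬ E (X j)) →
      ∀ g : Fin r → Polynomial ℕ, (∀ j, g j ∈ Γ) →
      ∀ w : Fin M → ℕ → ℂ, (∀ m t, ‖w m t‖ ≤ 1) →
      (((Fintype.piFinset (fun j => quads (X j))).filter (fun F => ∃ m : Fin M, ∃ i : Fin r → ℕ,
        δ * S.card < ‖∑ t ∈ S.filter (fun t => ∀ j,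
          cardFactors (val (F j) ((g j).eval t)) ≡ i j [MOD k]), w m t -
          (∑ t ∈ S, w m t) / (k : ℂ) ^ r‖)).card : ℝ) ≤
      δ * ∏ j, ((quads (X j)).card : ℝ)) := by
  have hS0 : 0 < S.card := by
    have hMR : (1 : ℝ) ≤ M := by exact_mod_cast hM
    have h1 : (0 : ℝ) < 2 * M / δ ^ 3 := by positivity
    have h2 : (0 : ℝ) < S.card := by linarith
    exact_mod_cast h2
  have hΓ' : ∀ g ∈ Γ, ∀ t ∈ S, ∀ s ∈ S, g.eval t = g.eval s → t = s := fun g hg t _ s _ h =>
    (Pool.Agent.T2H34.Prd.poly_inj (hΓ g hg)).injective h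
  refine ⟨⟨_, Pool.Agent.T2H34.Prd.null4 (k := 2) (by norm_num) S Γ hΓ', ?_⟩, fun k hk =>
    ⟨_, Pool.Agent.T2H34.Prd.null4 (k := k) hk S Γ hΓ', ?_⟩⟩
  · intro r hr X hX g hg G
    have hX' : ∀ j, Pool.Agent.T2H34.Prd.Pcs 2 S
        (fun t => Pool.Agent.T2H34.Prd.oq ((g j).eval t)) (quads (X j)) := fun j =>
      not_not.1 (hX j) (g j) (hg j)
    have hb1 : (fun _ : Fin r => (-1 : ℂ)) ≠ 1 := by
      intro h
      have h1 := congrFun h ⟨0, by omega⟩
      norm_num at h1
    have h := Pool.Agent.T2H34.Prd.signs (k := 2) (by norm_num) (fun _ : Fin r => (-1 : ℂ))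
      (fun _ => by norm_num) hb1 (fun m t => ((lam ((G m).eval (t : ℤ)) : ℝ) : ℂ))
      (fun m t => by
        rw [Complex.norm_real, Real.norm_eq_abs]
        exact lam_abs _) S (fun j t => Pool.Agent.T2H34.Prd.oq ((g j).eval t))
      (fun j => quads (X j)) hX' hδ hS hS0
    refine le_trans (le_of_eq ?_) h
    congr 2
    refine filter_congr fun F hF => ?_
    rw [Fintype.mem_piFinset] at hF
    refine exists_congr fun m => ?_
    have e1 : Pool.Agent.T2H34.Prd.Ts
        (fun j t p => (-1 : ℂ) ^ Pool.Agent.T2H34.Prd.oq ((g j).eval t) p)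
        (fun t => ((lam ((G m).eval (t : ℤ)) : ℝ) : ℂ)) S F =
        ((∑ t ∈ S, lam ((G m * ∏ j, (pol (F j)).comp
          ((g j).map (Nat.castRingHom ℤ))).eval (t : ℤ)) : ℝ) : ℂ) := by
      unfold Pool.Agent.T2H34.Prd.Ts
      rw [Complex.ofReal_sum]
      refine sum_congr rfl fun t _ => ?_
      rw [Polynomial.eval_mul, lam_mul, Polynomial.eval_prod, lam_prod]
      have e2 : ∀ j ∈ (univ : Finset (Fin r)), lam (((pol (F j)).comp
          ((g j).map (Nat.castRingHom ℤ))).eval (t : ℤ)) =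
          (-1) ^ cardFactors (val (F j) ((g j).eval t)) := by
        intro j _
        rw [Polynomial.eval_comp, Polynomial.eval_natCast_map, eq_natCast, Nat.cast_id, lam_val (hF j)]
      rw [prod_congr rfl e2]
      push_cast
      rfl
    rw [e1, Complex.norm_real, Real.norm_eq_abs]
  · intro r X hX g hg w hw
    have hX' : ∀ j, Pool.Agent.T2H34.Prd.Pcs k S
        (fun t => Pool.Agent.T2H34.Prd.oq ((g j).eval t)) (quads (X j)) := fun j =>
      not_not.1 (hX j) (g j) (hg j)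
    exact Pool.Agent.T2H34.Prd.patterns hk w hw S
      (fun j t => Pool.Agent.T2H34.Prd.oq ((g j).eval t)) (fun j => quads (X j)) hX' hδ hS hS0

end Pool.Agent.Results.MP_648c71_nt.ProductsOfQuadratics
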