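import Pool.Agent.T2H31.RC.Asm
import Pool.Agent.T2H31.RC.T_MW
import Pool.Agent.T2H31.RC.T_RES
import Pool.Agent.T2H31.RC.T_INC
import Pool.Agent.T2H31.RC.T_SQ
import Pool.Agent.T2H31.RC.T_BON
import Pool.Agent.T2H31.RC.T_PROB
import Pool.Agent.T2H31.RC.T_UNI
import Pool.Agent.T2H31.RC.T_NET
import Pool.Agent.T2H31.RC.T_APC
import Pool.Agent.T2H31.RC.T_VAR
import Pool.Agent.T2H31.RC.T_TK
import Pool.Agent.T2H31.RC.T_PN
import Pool.Agent.T2H31.RC.T_MERT
import Pool.Agent.T2H31.RC.T_ALL
import Pool.Agent.T2H31.RC.T_DEN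
import Pool.Agent.T2H31.RC.T_MOD

/-!
# Chowla's conjecture at polynomial values for random completely multiplicative signs, and for sparse random
perturbations of the Liouville function

`Noise P δ X` (file `Pool/Agent/T2H31/RC/Defs.lean`): the `X p` are independent signs with `P (X p = -1) = δ p`.
`cm x` is the completely multiplicative function with the values `x p` at the primes `p` (extended to negative integers by
`cm x (-n) = cm x n`, and `cm x 0 = 0`); `cm (fun _ => -1)` is the Liouville function. `Pol d H R`: the integer polynomial `R`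
is squarefree over `ℚ`, its degree is between `1` and `d` and its coefficients have absolute value at most `H`.
`ee x = exp (2 π i x)`.

(0) The models exist.

(1) Fair signs (`δ = 1/2`). Almost surely the sum of `f (R t)` over the `t ≤ N` with `t ≡ a mod q` is at most
`N ^ (2/3 + ε)` in absolute value for all large `N`, for all nonconstant `R` squarefree over `ℚ`, all `a`, `q` and `ε > 0`.

(2) Fair signs, uniformly in the polynomial: for `d, k, B`, `ε > 0` and families `W N` of at most `N ^ B` weights, almost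
surely for all large `N`, ALL `R` with `Pol d (N ^ B) R`, all real polynomials `Q` of degree at most `k` and all `w` in `W N`:
`|∑_{t ≤ N} w(t) f(R(t)) e(Q(t))| ≤ N ^ (2/3 + ε)`, and `≤ N ^ (1/2 + ε)` for the sum over the `t` with `R(t)` squarefree.

(3) Noise around an arbitrary completely multiplicative function. Let `δ` be antitone with `0 ≤ δ ≤ 1/2` and
`δ n log log n → ∞` (so `δ n → 0` is allowed) and let `g` be any signs (for example `g = -1`, the Liouville function). Almost
surely the completely multiplicative function with the values `g p X p` satisfies the assertion of the question, for all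
polynomials in all arithmetic progressions.

(4) So for every completely multiplicative function with values `±1` (for example the Liouville function) there is another
one which satisfies the assertion of the question and is equal to it at the primes of a set of relative density one.

(5) `cm (fun _ => -1)` is the Liouville function.

Ideas. (1), (2): the odd parts of the factorisations are split at `√(log N)`; there are `N ^ o(1)` small parts and for each of
them the sum is a polynomial in the signs of degree `o(log N)`, so by hypercontractivity (Bonami) the large deviations beat any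
union bound of polynomial size. The second moment counts the pairs `s, t ≤ N` with `R(s) R(t)` a square up to sign: at most
`N ^ (4/3 + ε)`, uniformly in `R`, by the square sieve and Weil's bound for mixed sums. (3): second moment, conditionally on
the signs at the primes up to `(log N) ^ 2`; the conditional mean is small by the Turán-Kubilius inequality for the values of
`R` and Mertens' theorem for the roots of polynomials.

Proved in `Pool/Agent/T2H31/RC` with helper3, helper15, helper19, helper27, helper53, helper69, helper71, helper94.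
-/

set_option autoImplicit false

open MeasureTheory ProbabilityTheory Polynomial Finset Filter Topology

open Pool.Agent.T2H31.RC

namespace Pool.Agent.Results.MP_648c71_nt.RandomLiouville

theorem result :
    -- (0) the models exist
    (∀ δ : ℕ → ℝ, (∀ p, 0 ≤ δ p ∧ δ p ≤ 1) → ∃ (Ω : Type) (_ : MeasurableSpace Ω) (P : Measure Ω) (X : ℕ → Ω → ℝ),
      Noise P δ X) ∧
    -- (1) fair signs
    (∀ (Ω : Type) [MeasurableSpace Ω] (P : Measure Ω) (X : ℕ → Ω → ℝ), Noise P (fun _ => 1 / 2) X →
      ∀ᵐ ω ∂P, ∀ ε : ℝ, 0 < ε → ∀ R : ℤ[X], 1 ≤ R.natDegree → Squarefree (R.map (Int.castRingHom ℚ)) →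
        ∀ (a : ℤ) (q : ℕ), 1 ≤ q → ∀ᶠ N : ℕ in atTop,
        |∑ t ∈ (Icc 1 N).filter (fun t : ℕ => (t : ℤ) ≡ a [ZMOD q]), cm (fun p => X p ω) (R.eval (t : ℤ))| ≤
          (N : ℝ) ^ (2 / 3 + ε)) ∧
    -- (2) fair signs, uniformly in the polynomials, with weights and polynomial phases
    (∀ (Ω : Type) [MeasurableSpace Ω] (P : Measure Ω) (X : ℕ → Ω → ℝ), Noise P (fun _ => 1 / 2) X →
      ∀ (d k B : ℕ) (W : ℕ → Finset (ℕ → ℂ)), (∀ N, ∀ w ∈ W N, ∀ t, ‖w t‖ ≤ 1) →
      (∀ᶠ N : ℕ in atTop, ((W N).card : ℝ) ≤ (N : ℝ) ^ B) → ∀ ε : ℝ, 0 < ε →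
      ∀ᵐ ω ∂P, ∀ᶠ N : ℕ in atTop, ∀ R : ℤ[X], Pol d (N ^ B) R → ∀ w ∈ W N, ∀ Q : ℝ[X], Q.natDegree ≤ k →
        ‖∑ t ∈ Icc 1 N, w t * (cm (fun p => X p ω) (R.eval (t : ℤ)) : ℂ) * ee (Q.eval (t : ℝ))‖ ≤
          (N : ℝ) ^ (2 / 3 + ε) ∧
        open Classical in
        ‖∑ t ∈ (Icc 1 N).filter (fun t : ℕ => Squarefree (R.eval (t : ℤ))),
          w t * (cm (fun p => X p ω) (R.eval (t : ℤ)) : ℂ) * ee (Q.eval (t : ℝ))‖ ≤ (N : ℝ) ^ (1 / 2 + ε)) ∧
    -- (3) noise around an arbitrary completely multiplicative function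
    (∀ (Ω : Type) [MeasurableSpace Ω] (P : Measure Ω) (δ : ℕ → ℝ) (X : ℕ → Ω → ℝ), Noise P δ X →
      (∀ p, 0 ≤ δ p ∧ δ p ≤ 1 / 2) → Antitone δ → Tendsto (fun n : ℕ => δ n * Real.log (Real.log n)) atTop atTop →
      ∀ g : ℕ → ℝ, (∀ p, g p = 1 ∨ g p = -1) → ∀ᵐ ω ∂P, ∀ R : ℤ[X], 1 ≤ R.natDegree →
        Squarefree (R.map (Int.castRingHom ℚ)) → ∀ (a : ℤ) (q : ℕ), 1 ≤ q →
        Tendsto (fun N : ℕ => (∑ t ∈ (Icc 1 N).filter (fun t : ℕ => (t : ℤ) ≡ a [ZMOD q]),
          cm (fun p => g p * X p ω) (R.eval (t : ℤ))) / N) atTop (𝓝 0)) ∧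
    -- (4) functions close to a given one which satisfy the assertion of the question
    (∀ g : ℕ → ℝ, (∀ p, g p = 1 ∨ g p = -1) → ∃ x : ℕ → ℝ, (∀ p, x p = 1 ∨ x p = -1) ∧
      (open Classical in
        Tendsto (fun N : ℕ => (((Icc 1 N).filter (fun p => p.Prime ∧ x p ≠ g p)).card : ℝ) / Nat.primeCounting N)
        atTop (𝓝 0)) ∧
      ∀ R : ℤ[X], 1 ≤ R.natDegree → Squarefree (R.map (Int.castRingHom ℚ)) → ∀ (a : ℤ) (q : ℕ), 1 ≤ q →
        Tendsto (fun N : ℕ => (∑ t ∈ (Icc 1 N).filter (fun t : ℕ => (t : ℤ) ≡ a [ZMOD q]),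
          cm x (R.eval (t : ℤ))) / N) atTop (𝓝 0)) ∧
    -- (5) the Liouville function
    (∀ n : ℤ, n ≠ 0 → cm (fun _ => -1) n = (-1) ^ ArithmeticFunction.cardFactors n.natAbs) := by
  have hINC : P_INC := T_INC T_MW
  have hSQ : P_SQ := T_SQ T_RES hINC
  have hPROB : P_PROB := T_PROB T_BON
  have hUNI : P_UNI := T_UNI hPROB
  have hNET : P_NET := T_NET hUNI hSQ
  have hPN : P_PN := T_PN T_VAR T_TK
  have hALL : P_ALL := T_ALL hPN T_MERT
  refine ⟨T_MOD, T_APC hNET, hNET, hALL, fun g hg => exists_close hALL T_DEN T_MOD g hg, ?_⟩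
  intro n hn
  unfold cm
  rw [if_neg hn, Finsupp.prod]
  rw [prod_pow_eq_pow_sum]
  congr 1
  rw [ArithmeticFunction.cardFactors_eq_sum_factorization]
  rfl

end Pool.Agent.Results.MP_648c71_nt.RandomLiouville
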